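import Pool.Agent.ABY.Stmts

set_option autoImplicit false

open scoped BigOperators Matrix

noncomputable section

namespace Pool.Agent.ABY.H10

theorem cmp : CmpStmt := by
  intro 𝕜 _ X _ _ M K P g U A ρ h
  have hK0 : ∀ a b, 0 ≤ K a b := fun a b => (norm_nonneg _).trans (h.hM a b)
  have hP0 := h.hP.1
  have hPU := h.hP.2
  have part1 : ∀ N u : X → ℝ,
      (∀ a ∈ A, N a - ∑ b, K a b * (P b * N b) ≤ u a - ∑ b, K a b * (P b * u b)) →
      ∀ a ∈ A, N a ≤ u a := by
    intro N u hNu
    have hD : ∀ a ∈ A, N a - u a ≤ ∑ b, K a b * (P b * (N b - u b)) := by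
      intro a ha
      have h1 := hNu a ha
      have h2 : ∑ b, K a b * (P b * (N b - u b)) =
          ∑ b, K a b * (P b * N b) - ∑ b, K a b * (P b * u b) := by
        rw [← Finset.sum_sub_distrib]
        exact Finset.sum_congr rfl fun b _ => by ring
      rw [h2]
      linarith
    have hU : ∀ b ∈ U, N b - u b ≤ 0 := by
      intro b hb
      obtain ⟨a, ha, hmax⟩ := Finset.exists_max_image U (fun a => (N a - u a) / g a) ⟨b, hb⟩
      have hga := h.hg a (h.hU ha)
      have hr : (N a - u a) / g a ≤ 0 := by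
        by_contra hc
        push Not at hc
        have h1 : N a - u a = (N a - u a) / g a * g a := by
          rw [div_mul_cancel₀]
          exact ne_of_gt hga
        have h2 : ∑ c, K a c * (P c * (N c - u c)) ≤
            ∑ c, (N a - u a) / g a * (K a c * P c * g c) := by
          refine Finset.sum_le_sum fun c _ => ?_
          by_cases hc' : c ∈ U
          · have h3 := hmax c hc'
            have hgc := h.hg c (h.hU hc')
            have h4 : N c - u c ≤ (N a - u a) / g a * g c := by
              rwa [div_le_iff₀ hgc] at h3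
            have h5 := mul_le_mul_of_nonneg_left h4 (mul_nonneg (hK0 a c) (hP0 c))
            linarith
          · rw [hPU c hc']
            simp
        rw [← Finset.mul_sum] at h2
        have h6 := mul_le_mul_of_nonneg_left (h.hK a (h.hU ha)) hc.le
        have h7 := hD a (h.hU ha)
        have h8 : 0 < (N a - u a) / g a * g a := mul_pos hc hga
        have h9 : (N a - u a) / g a * g a ≤ ρ * ((N a - u a) / g a * g a) := by
          calc (N a - u a) / g a * g a = N a - u a := h1.symm
            _ ≤ (N a - u a) / g a * (ρ * g a) := h7.trans (h2.trans h6)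
            _ = ρ * ((N a - u a) / g a * g a) := by ring
        nlinarith [h.hρ.2]
      have h10 := (hmax b hb).trans hr
      have hgb := h.hg b (h.hU hb)
      rw [div_le_iff₀ hgb, zero_mul] at h10
      exact h10
    intro a ha
    have h1 := hD a ha
    have h2 : ∑ b, K a b * (P b * (N b - u b)) ≤ 0 := by
      refine Finset.sum_nonpos fun b _ => ?_
      by_cases hb : b ∈ U
      · exact mul_nonpos_of_nonneg_of_nonpos (hK0 a b)
          (mul_nonpos_of_nonneg_of_nonpos (hP0 b) (hU b hb))
      · rw [hPU b hb]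
        simp
    linarith
  refine ⟨part1, fun f u hf => ?_⟩
  refine part1 (fun a => ‖f a‖) u fun a ha => ?_
  have h1 := hf a ha
  have h2 : ‖f a‖ ≤ ‖f a - ∑ b, M a b * (((P b : ℝ) : 𝕜) * f b)‖ +
      ‖∑ b, M a b * (((P b : ℝ) : 𝕜) * f b)‖ := by
    have := norm_add_le (f a - ∑ b, M a b * (((P b : ℝ) : 𝕜) * f b))
      (∑ b, M a b * (((P b : ℝ) : 𝕜) * f b))
    rwa [sub_add_cancel] at this
  have h3 : ‖∑ b, M a b * (((P b : ℝ) : 𝕜) * f b)‖ ≤ ∑ b, K a b * (P b * ‖f b‖) := by
    refine (norm_sum_le _ _).trans (Finset.sum_le_sum fun b _ => ?_)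
    rw [norm_mul, norm_mul, RCLike.norm_ofReal, abs_of_nonneg (hP0 b)]
    exact mul_le_mul_of_nonneg_right (h.hM a b) (mul_nonneg (hP0 b) (norm_nonneg _))
  show ‖f a‖ - ∑ b, K a b * (P b * ‖f b‖) ≤ _
  linarith

end Pool.Agent.ABY.H10
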