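import Pool.Agent.ABY.Stmts

set_option autoImplicit false

open scoped BigOperators Matrix

noncomputable section

namespace Pool.Agent.ABY.H10

/-- the vector of the values at the indices in `b` -/
def eb {𝕜 : Type} {ι : Type} (b : Finset ι) (x : ι → 𝕜) : EuclideanSpace 𝕜 b :=
  WithLp.toLp 2 fun c : b => x c

theorem eb_norm {𝕜 : Type} [RCLike 𝕜] {ι : Type} (b : Finset ι) (x : ι → 𝕜) :
    ‖eb b x‖ ^ 2 = ∑ c ∈ b, ‖x c‖ ^ 2 := by
  rw [EuclideanSpace.norm_sq_eq, ← Finset.sum_coe_sort b fun c => ‖x c‖ ^ 2]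
  rfl

theorem tt_eq {𝕜 : Type} [RCLike 𝕜] {X : Type} [Fintype X] [DecidableEq X] (M : Matrix X X 𝕜)
    (P : X → ℝ) (hu : IsUnit (1 - M * dg 𝕜 P).det) (h : X → 𝕜) (a : X) :
    (TT M P *ᵥ h) a = h a + ∑ b, M a b * (((P b : ℝ) : 𝕜) * (TT M P *ᵥ h) b) := by
  have h1 : (1 - M * dg 𝕜 P) * TT M P = 1 := Matrix.mul_nonsing_inv _ hu
  have h2 : (1 - M * dg 𝕜 P) *ᵥ (TT M P *ᵥ h) = h := by
    rw [Matrix.mulVec_mulVec, h1, Matrix.one_mulVec]
  have h3 := congrFun h2 a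
  rw [Matrix.sub_mulVec, Matrix.one_mulVec, Pi.sub_apply] at h3
  have h4 : ((M * dg 𝕜 P) *ᵥ (TT M P *ᵥ h)) a =
      ∑ b, M a b * (((P b : ℝ) : 𝕜) * (TT M P *ᵥ h) b) := by
    show ∑ b, (M * dg 𝕜 P) a b * (TT M P *ᵥ h) b = _
    refine Finset.sum_congr rfl fun b _ => ?_
    have h5 : (M * dg 𝕜 P) a b = M a b * ((P b : ℝ) : 𝕜) := by
      unfold dg
      rw [Matrix.mul_diagonal]
    rw [h5, mul_assoc]
  rw [h4] at h3
  rw [← h3]
  ring

theorem tsp : TspStmt := by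
  intro hC hV 𝕜 _ X _ _ M K P g U A ρ h ι b hh V hV0 hb a ha
  obtain ⟨hu, -, -, -, -⟩ := hV hC 𝕜 X M K P g U A ρ h
  obtain ⟨hc, -⟩ := hC 𝕜 X M K P g U A ρ h
  have hρ1 : 0 < 1 - ρ := sub_pos.2 h.hρ.2
  have hF : ∀ x, eb b (fun c => (TT M P *ᵥ hh c) x) = eb b (fun c => hh c x) +
      ∑ y, (M x y * ((P y : ℝ) : 𝕜)) • eb b (fun c => (TT M P *ᵥ hh c) y) := by
    intro x
    ext c
    rw [PiLp.add_apply, WithLp.ofLp_sum, Finset.sum_apply]
    show (TT M P *ᵥ hh c) x = hh c x + ∑ y, (M x y * ((P y : ℝ) : 𝕜)) * (TT M P *ᵥ hh c) y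
    rw [tt_eq M P hu (hh c) x]
    congr 1
    exact Finset.sum_congr rfl fun y _ => by ring
  have hN : ∀ x ∈ A, ‖eb b (fun c => (TT M P *ᵥ hh c) x)‖ -
      ∑ y, K x y * (P y * ‖eb b (fun c => (TT M P *ᵥ hh c) y)‖) ≤ V * g x := by
    intro x hx
    have h1 : ‖eb b (fun c => hh c x)‖ ≤ V * g x := by
      have h2 : ‖eb b (fun c => hh c x)‖ ^ 2 ≤ (V * g x) ^ 2 := by
        rw [eb_norm]
        exact hb x hx
      exact (sq_le_sq₀ (norm_nonneg _) (mul_nonneg hV0 (h.hg x hx).le)).1 h2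
    have h3 : ‖∑ y, (M x y * ((P y : ℝ) : 𝕜)) • eb b (fun c => (TT M P *ᵥ hh c) y)‖ ≤
        ∑ y, K x y * (P y * ‖eb b (fun c => (TT M P *ᵥ hh c) y)‖) := by
      refine (norm_sum_le _ _).trans (Finset.sum_le_sum fun y _ => ?_)
      rw [norm_smul, norm_mul, RCLike.norm_ofReal, abs_of_nonneg (h.hP.1 y), mul_assoc]
      exact mul_le_mul_of_nonneg_right (h.hM x y) (mul_nonneg (h.hP.1 y) (norm_nonneg _))
    have h4 := norm_add_le (eb b (fun c => hh c x))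
      (∑ y, (M x y * ((P y : ℝ) : 𝕜)) • eb b (fun c => (TT M P *ᵥ hh c) y))
    rw [← hF x] at h4
    linarith
  have hle := hc (fun x => ‖eb b (fun c => (TT M P *ᵥ hh c) x)‖) (fun x => V / (1 - ρ) * g x)
    (fun x hx => by
      refine (hN x hx).trans ?_
      have h1 : ∑ y, K x y * (P y * (V / (1 - ρ) * g y)) = V / (1 - ρ) * ∑ y, K x y * P y * g y := by
        rw [Finset.mul_sum]
        exact Finset.sum_congr rfl fun y _ => by ring
      have h2 := mul_le_mul_of_nonneg_left (h.hK x hx) (div_nonneg hV0 hρ1.le)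
      have h3 : V / (1 - ρ) * g x - V / (1 - ρ) * (ρ * g x) = V * g x := by
        field_simp
      rw [h1]
      linarith) a ha
  rw [← eb_norm]
  exact pow_le_pow_left₀ (norm_nonneg _) hle 2

end Pool.Agent.ABY.H10
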